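import Pool.Agent.CPG.Main

/-!
MP_f930e6_co: the cop number is at most `8 b / log₂ b` for connected graphs of cyclomatic number
`b`; hence it is at most `8 (k + F - 1) / log₂ k` for graphs cellularly embedded with `F` faces in
a surface of Euler genus `k`.
-/

namespace Pool.Agent.Results.MP_f930e6_co.CyclomaticLog

open Pool.Agent.CPG

theorem result :
    (∀ (V : Type) [Fintype V] (G : SimpleGraph V) [DecidableRel G.Adj], G.Connected →
      ∀ D : ℕ, 1 ≤ D →
        copNumber G ≤ (2 * G.edgeFinset.card - 2 * Fintype.card V) / D + 2 ^ D) ∧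
    (∀ (V : Type) [Fintype V] (G : SimpleGraph V) [DecidableRel G.Adj], G.Connected →
      ∀ b : ℕ, 2 ≤ b → G.edgeFinset.card + 1 = Fintype.card V + b →
        (copNumber G : ℝ) ≤ 8 * b / Real.logb 2 b) ∧
    (∀ (V : Type) [Fintype V] (G : SimpleGraph V) [DecidableRel G.Adj], G.Connected →
      ∀ (S : Scheme G) (F k : ℕ), S.HasFaces F → 2 ≤ k →
        Fintype.card V + F + k = G.edgeFinset.card + 2 →
        (copNumber G : ℝ) ≤ 8 * (k + F - 1) / Real.logb 2 (k + F - 1) ∧
        (copNumber G : ℝ) ≤ 8 * (k + F - 1) / Real.logb 2 k) :=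
  final

end Pool.Agent.Results.MP_f930e6_co.CyclomaticLog
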